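import Pool.Agent.Helper28.T3E.StF

set_option autoImplicit false

/-! Module UBEev of project T3E: the upper bound for even `n`, from the upper bound of project W3. -/

namespace Pool.Agent.Helper63.T3E

open Pool.Agent.Helper28.T3E
open Pool.Agent.Helper14.CV (Homog EqC act Tl)
open Pool.Agent.Helper14.W3 Pool.Agent.Helper78.W3
open Pool.Agent.Helper14.T3

private theorem wE_even {n : ℕ} (h : n % 2 = 0) : wE n = 1 := by
  unfold wE
  exact Even.neg_one_pow (Nat.even_iff.2 h)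

private theorem de3_even {n : ℕ} (h3 : 3 ≤ n) (h : n % 2 = 0) : de3 n = dd3 n := by
  unfold de3 dd3
  rw [if_neg (by omega), if_pos h, if_neg (by omega), if_neg (by omega), if_pos h]

private theorem toNew {n : ℕ} {w : ℤ} (hw : w = 1) {G : ℤ → ℤ → ℂ} (h : NewSym3S n w 1 G) :
    NewSym3 n G := by
  subst hw
  obtain ⟨h1, h2, h3, h4, h5⟩ := h
  rw [one_smul] at h4 h5
  exact ⟨h1, h2, h3, h4, h5⟩

theorem hUBEev : StUBEev := by
  intro hUB n h3 he
  obtain ⟨Θ, hΘ⟩ := hUB n h3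
  have hw := wE_even he
  rw [de3_even h3 he]
  let φ : NSS3 n (wE n) 1 →ₗ[ℂ] NS3 n :=
    { toFun := fun G => ⟨(G : ℤ → ℤ → ℂ), toNew hw G.2⟩
      map_add' := fun _ _ => rfl
      map_smul' := fun _ _ => rfl }
  refine ⟨Θ.comp φ, fun G hG => ?_⟩
  exact hΘ (φ G) hG

end Pool.Agent.Helper63.T3E
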